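import Mathlib

set_option autoImplicit false

/-!
# Elementary inequalities for large arguments
-/

namespace Pool.Agent.V5helper54.GD

open Filter Asymptotics

lemma ev_log (ε r s : ℝ) (hε : 0 < ε) (hr : 0 < r) : ∀ᶠ x : ℝ in atTop, Real.log x ^ s ≤ ε * x ^ r := by
  have h1 := (isLittleO_log_rpow_rpow_atTop s hr).bound hε
  filter_upwards [h1, eventually_ge_atTop (1 : ℝ)] with x hx hx1
  rw [Real.norm_of_nonneg (Real.rpow_nonneg (Real.log_nonneg hx1) _), Real.norm_of_nonneg (by positivity)] at hx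
  exact hx

theorem ev (c K δ : ℝ) (hc : 0 < c) (hK : 0 < K) (hδ : 0 < δ) (B C N₀ : ℕ) : ∃ M₀ : ℕ, ∀ M : ℕ, M₀ ≤ M →
    2 ≤ M ∧ N₀ ≤ M ∧ 1 ≤ Real.log M ∧
    K * (1 + Real.log (B + 1)) * (Real.log M ^ (1 - 2 * δ) * Real.log (Real.log M) ^ 4) ≤ Real.log M ∧
    4 * Real.log M * (B + 1 : ℝ) ≤ (M : ℝ) ^ (1 / 2 : ℝ) ∧
    (2 * Real.log M ^ 2) ^ C ≤ Real.exp (c * Real.log M ^ (1 / 2 : ℝ)) ∧
    Real.log M ^ (1 / 2 - δ) * Real.log (Real.log M) ≤ Real.log M ^ (1 / 2 : ℝ) := by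
  have hB : (0 : ℝ) ≤ B := Nat.cast_nonneg B
  have hb0 : 0 ≤ Real.log ((B : ℝ) + 1) := Real.log_nonneg (by linarith)
  have hC : (0 : ℝ) ≤ C := Nat.cast_nonneg C
  have h1 := ev_log (1 / (K * (1 + Real.log (B + 1)))) (2 * δ) 4 (by positivity) (by positivity)
  have h2 := ev_log (c / (4 * (C + 1))) (1 / 2) 1 (by positivity) (by norm_num)
  have h3 := ev_log 1 δ 1 one_pos hδ
  have h4 : ∀ᶠ x : ℝ in atTop, (1 ≤ x ∧ 32 * ((B : ℝ) + 1) ≤ x ∧ 2 ≤ x) :=
    (eventually_ge_atTop 1).and ((eventually_ge_atTop _).and (eventually_ge_atTop _))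
  have h5 : Tendsto (fun M : ℕ => Real.log (M : ℝ)) atTop atTop := Real.tendsto_log_atTop.comp tendsto_natCast_atTop_atTop
  have h6 := h5.eventually (h1.and (h2.and (h3.and h4)))
  have h7 := h6.and ((eventually_ge_atTop (2 : ℕ)).and (eventually_ge_atTop N₀))
  obtain ⟨M₀, hM₀⟩ := eventually_atTop.1 h7
  refine ⟨M₀, fun M hM => ?_⟩
  obtain ⟨⟨g1, g2, g3, g4, g5, g6⟩, g7, g8⟩ := hM₀ M hM
  obtain ⟨x, hx⟩ : ∃ x, x = Real.log (M : ℝ) := ⟨_, rfl⟩
  rw [← hx] at g1 g2 g3 g4 g5 g6 ⊢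
  have hx0 : 0 < x := by linarith
  have hM0 : (0 : ℝ) < M := by exact_mod_cast (by omega : 0 < M)
  rw [show (4 : ℝ) = ((4 : ℕ) : ℝ) by norm_num, Real.rpow_natCast] at g1
  rw [Real.rpow_one] at g2 g3
  have hlx : 0 ≤ Real.log x := Real.log_nonneg g4
  refine ⟨g7, g8, g4, ?_, ?_, ?_, ?_⟩
  · have e1 : x ^ (1 - 2 * δ) * x ^ (2 * δ) = x := by
      rw [← Real.rpow_add hx0, sub_add_cancel, Real.rpow_one]
    calc K * (1 + Real.log (B + 1)) * (x ^ (1 - 2 * δ) * Real.log x ^ 4)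
        ≤ K * (1 + Real.log (B + 1)) * (x ^ (1 - 2 * δ) * (1 / (K * (1 + Real.log (B + 1))) * x ^ (2 * δ))) := by
          apply mul_le_mul_of_nonneg_left _ (by positivity)
          exact mul_le_mul_of_nonneg_left g1 (by positivity)
      _ = x ^ (1 - 2 * δ) * x ^ (2 * δ) := by
          field_simp
      _ = x := e1
  · have e1 : (M : ℝ) ^ (1 / 2 : ℝ) = Real.exp (x / 2) := by
      rw [Real.rpow_def_of_pos hM0, ← hx]
      congr 1
      ring
    rw [e1]
    have e2 := Real.quadratic_le_exp_of_nonneg (show 0 ≤ x / 2 by positivity)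
    nlinarith
  · have e1 : (2 * x ^ 2) ^ C = Real.exp (C * Real.log (2 * x ^ 2)) := by
      rw [Real.exp_nat_mul, Real.exp_log (by positivity)]
    rw [e1]
    apply Real.exp_le_exp.2
    have e2 : Real.log (2 * x ^ 2) ≤ 4 * Real.log x := by
      rw [Real.log_mul (by norm_num) (by positivity), Real.log_pow]
      have e3 : Real.log 2 ≤ Real.log x := Real.log_le_log (by norm_num) g6
      push_cast
      linarith
    calc (C : ℝ) * Real.log (2 * x ^ 2) ≤ (C + 1) * (4 * (c / (4 * (C + 1)) * x ^ (1 / 2 : ℝ))) := by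
          apply mul_le_mul (by linarith) (by linarith) _ (by positivity)
          apply Real.log_nonneg
          nlinarith
      _ = c * x ^ (1 / 2 : ℝ) := by
          field_simp
  · have e1 : x ^ (1 / 2 - δ) * x ^ δ = x ^ (1 / 2 : ℝ) := by
      rw [← Real.rpow_add hx0, sub_add_cancel]
    rw [← e1]
    apply mul_le_mul_of_nonneg_left _ (by positivity)
    linarith

end Pool.Agent.V5helper54.GD
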