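import Mathlib

set_option autoImplicit false

/-!
# The values of a polynomial of growing degree are not small
-/

namespace Pool.Agent.V5helper54.GD

open Finset Polynomial

/-- the difference of order `k` with the step `t` -/
lemma diff_eq {F : ℝ[X]} {k t : ℕ} (hF : F.natDegree = k) (ht : 1 ≤ t) {v : ℕ → ℤ} {M : ℕ} (hM : 1 + k * t ≤ M)
    (hv : ∀ n ∈ Icc 1 M, F.eval (n : ℝ) = v n) :
    F.leadingCoeff * (t : ℝ) ^ k * (k.factorial : ℝ) =
      ((∑ j ∈ range (k + 1), (-1 : ℤ) ^ (k - j) * (k.choose j : ℤ) * v (1 + j * t) : ℤ) : ℝ) := by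
  have ht0 : (t : ℝ) ≠ 0 := by
    have : 0 < t := ht
    positivity
  obtain ⟨P, hP⟩ : ∃ P : ℝ[X], P = F.comp (C (t : ℝ) * X + C 1) := ⟨_, rfl⟩
  have h1 : P.natDegree = k := by
    rw [hP, natDegree_comp, natDegree_linear ht0, hF, mul_one]
  have h2 : P.leadingCoeff = F.leadingCoeff * (t : ℝ) ^ k := by
    rw [hP, leadingCoeff_comp (by rw [natDegree_linear ht0]; norm_num), leadingCoeff_linear ht0, hF]
  have h3 := congrFun (Polynomial.fwdDiff_iter_degree_eq_factorial P) 0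
  rw [h1, fwdDiff_iter_eq_sum_shift] at h3
  rw [← h2]
  have h4 : (P.leadingCoeff • ((k.factorial : ℕ) : ℝ → ℝ)) 0 = P.leadingCoeff * (k.factorial : ℝ) := by
    simp [Pi.smul_apply, smul_eq_mul]
  rw [h4] at h3
  rw [← h3]
  push_cast
  apply sum_congr rfl
  intro j hj
  rw [mem_range] at hj
  have h5 : P.eval (0 + j • (1 : ℝ)) = v (1 + j * t) := by
    rw [← hv (1 + j * t) (mem_Icc.2 ⟨by omega, by
      have : j * t ≤ k * t := Nat.mul_le_mul_right t (by omega)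
      omega⟩), hP, eval_comp]
    congr 1
    simp only [eval_add, eval_mul, eval_C, eval_X, nsmul_eq_mul, mul_one, zero_add]
    push_cast
    ring
  rw [h5, zsmul_eq_mul]
  push_cast
  ring

theorem low {F : ℝ[X]} {k t : ℕ} (hF : F.natDegree = k) (hk : 1 ≤ k) (ht : 1 ≤ t) {v : ℕ → ℤ} {M : ℕ} (hM : 1 + k * t ≤ M)
    (hv : ∀ n ∈ Icc 1 M, F.eval (n : ℝ) = v n) {X : ℝ} (hX : ∀ n ∈ Icc 1 M, |(v n : ℝ)| ≤ X) :
    (t : ℝ) ^ k ≤ 2 ^ k * X := by
  have h1 := diff_eq hF ht hM hv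
  have h2 := diff_eq hF le_rfl (by
    rw [mul_one]
    have : k * 1 ≤ k * t := Nat.mul_le_mul_left k ht
    omega) hv
  simp only [Nat.cast_one, one_pow, mul_one] at h2
  obtain ⟨z, hz⟩ : ∃ z : ℤ, z = ∑ j ∈ range (k + 1), (-1 : ℤ) ^ (k - j) * (k.choose j : ℤ) * v (1 + j) := ⟨_, rfl⟩
  rw [← hz] at h2
  have hF0 : F ≠ 0 := by
    intro h
    rw [h, natDegree_zero] at hF
    omega
  have hz0 : z ≠ 0 := by
    intro h
    rw [h, Int.cast_zero, mul_eq_zero] at h2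
    rcases h2 with h2 | h2
    · exact leadingCoeff_ne_zero.2 hF0 h2
    · exact (Nat.cast_ne_zero.2 (Nat.factorial_ne_zero k)) h2
  have hz1 : (1 : ℝ) ≤ |(z : ℝ)| := by
    have : 1 ≤ |z| := Int.one_le_abs hz0
    exact_mod_cast this
  have h3 : F.leadingCoeff * (t : ℝ) ^ k * (k.factorial : ℝ) = z * (t : ℝ) ^ k := by
    rw [← h2]
    ring
  rw [h3] at h1
  have h4 : |((∑ j ∈ range (k + 1), (-1 : ℤ) ^ (k - j) * (k.choose j : ℤ) * v (1 + j * t) : ℤ) : ℝ)| ≤ 2 ^ k * X := by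
    push_cast
    refine (abs_sum_le_sum_abs _ _).trans ?_
    have h5 : ∑ j ∈ range (k + 1), (k.choose j : ℝ) * X = 2 ^ k * X := by
      rw [← sum_mul]
      congr 1
      have := Nat.sum_range_choose k
      exact_mod_cast this
    rw [← h5]
    apply sum_le_sum
    intro j hj
    rw [mem_range] at hj
    rw [abs_mul, abs_mul, abs_pow, abs_neg, abs_one, one_pow, one_mul, Nat.abs_cast]
    apply mul_le_mul_of_nonneg_left _ (Nat.cast_nonneg _)
    apply hX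
    rw [mem_Icc]
    have : j * t ≤ k * t := Nat.mul_le_mul_right t (by omega)
    omega
  rw [← h1, abs_mul, abs_pow, Nat.abs_cast] at h4
  calc (t : ℝ) ^ k = 1 * (t : ℝ) ^ k := (one_mul _).symm
    _ ≤ |(z : ℝ)| * (t : ℝ) ^ k := mul_le_mul_of_nonneg_right hz1 (by positivity)
    _ ≤ _ := h4

theorem low' {F : ℝ[X]} {k : ℕ} (hF : F.natDegree = k) (hk : 1 ≤ k) {v : ℕ → ℤ} {M B N : ℕ} (hM : 4 * k * (B + 1) ≤ M)
    (hM2 : 4 * k * (B + 1 : ℝ) ≤ (M : ℝ) ^ (1 / 2 : ℝ))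
    (hv : ∀ n ∈ Icc 1 M, F.eval (n : ℝ) = v n) (hB : ∀ n ∈ Icc 1 M, |v n| ≤ B * N) :
    (M : ℝ) ^ ((k : ℝ) / 2) ≤ N := by
  have hk0 : (0 : ℝ) < k := by exact_mod_cast hk
  have hk1 : (1 : ℝ) ≤ k := by exact_mod_cast hk
  have hM4k : 4 * k ≤ M := by
    refine le_trans ?_ hM
    exact Nat.le_mul_of_pos_right _ (by omega)
  have hM4kr : (4 : ℝ) * k ≤ M := by exact_mod_cast hM4k
  have hM0 : (0 : ℝ) < M := by linarith
  obtain ⟨t, ht⟩ : ∃ t, t = (M - 1) / k := ⟨_, rfl⟩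
  have ht1 : 1 ≤ t := by
    rw [ht, Nat.le_div_iff_mul_le (by omega)]
    omega
  have htM : 1 + k * t ≤ M := by
    have : k * t ≤ M - 1 := by rw [ht]; exact Nat.mul_div_le _ _
    omega
  have ht2 : (M : ℝ) / (2 * k) ≤ t := by
    have e1 : M - 1 < (t + 1) * k := by
      rw [ht, mul_comm]
      exact Nat.lt_mul_div_succ (M - 1) (by omega)
    have e2 : (M : ℝ) < (t + 1) * k + 1 := by
      have : M < (t + 1) * k + 1 := by omega
      exact_mod_cast this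
    rw [div_le_iff₀ (by positivity)]
    nlinarith
  have key := low hF hk ht1 htM hv (X := (B : ℝ) * N) (by
    intro n hn
    exact_mod_cast hB n hn)
  have h1 : ((M : ℝ) / (2 * k)) ^ k ≤ 2 ^ k * ((B : ℝ) * N) :=
    (pow_le_pow_left₀ (by positivity) ht2 k).trans key
  have hBB : (0 : ℝ) ≤ B := Nat.cast_nonneg B
  have h2 : 2 ^ k * ((B : ℝ) * N) ≤ (2 * (B + 1)) ^ k * N := by
    rw [mul_pow, mul_assoc]
    apply mul_le_mul_of_nonneg_left _ (by positivity)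
    apply mul_le_mul_of_nonneg_right _ (Nat.cast_nonneg _)
    calc (B : ℝ) ≤ B + 1 := by linarith
      _ = (B + 1) ^ 1 := (pow_one _).symm
      _ ≤ (B + 1) ^ k := pow_le_pow_right₀ (by linarith) hk
  have h3 : ((M : ℝ) / (4 * k * (B + 1))) ^ k ≤ N := by
    have e1 : ((M : ℝ) / (2 * k)) = (M : ℝ) / (4 * k * (B + 1)) * (2 * (B + 1)) := by
      field_simp
      ring
    have e2 : (0 : ℝ) < (2 * ((B : ℝ) + 1)) ^ k := by positivity
    have e4 := h1.trans h2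
    rw [e1, mul_pow, mul_comm ((2 * ((B : ℝ) + 1)) ^ k) (N : ℝ)] at e4
    exact le_of_mul_le_mul_right e4 e2
  refine le_trans ?_ h3
  have e3 : (M : ℝ) ^ ((k : ℝ) / 2) = ((M : ℝ) ^ (1 / 2 : ℝ)) ^ k := by
    rw [← Real.rpow_natCast, ← Real.rpow_mul hM0.le]
    congr 1
    ring
  rw [e3]
  apply pow_le_pow_left₀ (by positivity)
  rw [le_div_iff₀ (by positivity)]
  calc (M : ℝ) ^ (1 / 2 : ℝ) * (4 * k * (B + 1)) ≤ (M : ℝ) ^ (1 / 2 : ℝ) * (M : ℝ) ^ (1 / 2 : ℝ) :=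
        mul_le_mul_of_nonneg_left hM2 (by positivity)
    _ = M := by
        rw [← Real.rpow_add hM0]
        norm_num

end Pool.Agent.V5helper54.GD
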