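import Pool.Agent.Y93.VK.DB
import Pool.Agent.V5helper54.GD.Vm
import Pool.Agent.H373R2.T7.EnergyDef

set_option autoImplicit false

/-!
# The additive energy of the values of a polynomial of growing degree
-/

namespace Pool.Agent.V5helper54.GD

open Finset Polynomial
open Pool.Agent.Y957.VK (Tu J Box nv)
open Pool.Agent.Y93.VK (DD nv_eq nv_le DD_mem)
open Pool.Agent.H373R2.T7 (energy)

/-- The integers `v 1, ..., v M` are the values of a real polynomial of degree exactly `k` at `1, ..., M`. -/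
def PolyValued (k M : ℕ) (v : ℕ → ℤ) : Prop :=
  ∃ F : ℝ[X], F.natDegree = k ∧ ∀ n ∈ Icc 1 M, F.eval (n : ℝ) = v n

/-- the relation between the differences of the power sums -/
lemma rel {s k M : ℕ} {v : ℕ → ℤ} {F : ℝ[X]} (hF : F.natDegree = k) (hv : ∀ n ∈ Icc 1 M, F.eval (n : ℝ) = v n)
    {z : (Fin s → ℕ) × (Fin s → ℕ)} (hz : z ∈ Tu s M ×ˢ Tu s M) (he : ∑ i, v (z.1 i) = ∑ i, v (z.2 i)) :
    ∑ j : Fin k, F.coeff ((j : ℕ) + 1) * (DD k z j : ℝ) = 0 := by
  have h1 : ∀ x ∈ Tu s M, ((∑ i, v (x i) : ℤ) : ℝ) =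
      s * F.coeff 0 + ∑ j : Fin k, F.coeff ((j : ℕ) + 1) * ∑ i, (x i : ℝ) ^ ((j : ℕ) + 1) := by
    intro x hx
    push_cast
    have h2 : ∀ i, (v (x i) : ℝ) = F.coeff 0 + ∑ j : Fin k, F.coeff ((j : ℕ) + 1) * (x i : ℝ) ^ ((j : ℕ) + 1) := by
      intro i
      rw [← hv (x i) (Fintype.mem_piFinset.1 hx i), eval_eq_sum_range, hF, sum_range_succ', add_comm]
      simp only [pow_zero, mul_one]
      congr 1
      rw [Finset.sum_range]
    rw [sum_congr rfl fun i _ => h2 i, sum_add_distrib, sum_const, card_univ, Fintype.card_fin, nsmul_eq_mul, sum_comm]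
    congr 1
    apply sum_congr rfl
    intro j _
    rw [mul_sum]
  rw [mem_product] at hz
  have h3 := h1 z.1 hz.1
  rw [he, h1 z.2 hz.2] at h3
  have h4 : ∑ j : Fin k, F.coeff ((j : ℕ) + 1) * (DD k z j : ℝ) =
      ∑ j : Fin k, F.coeff ((j : ℕ) + 1) * ∑ i, (z.1 i : ℝ) ^ ((j : ℕ) + 1) -
        ∑ j : Fin k, F.coeff ((j : ℕ) + 1) * ∑ i, (z.2 i : ℝ) ^ ((j : ℕ) + 1) := by
    rw [← sum_sub_distrib]
    apply sum_congr rfl
    intro j _
    unfold DD
    push_cast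
    ring
  rw [h4]
  linarith

theorem energy_card_le (s d M : ℕ) {v : ℕ → ℤ} (h : PolyValued (d + 1) M v) :
    energy s M v ≤ J s (d + 1) M * (Box s d M).card := by
  classical
  obtain ⟨F, hF, hv⟩ := h
  obtain ⟨E, hE⟩ : ∃ E, E = (Tu s M ×ˢ Tu s M).filter (fun q => ∑ i, v (q.1 i) = ∑ i, v (q.2 i)) := ⟨_, rfl⟩
  have h0 : energy s M v = E.card := by
    rw [hE]
    rfl
  rw [h0]
  have h1 : E.card ≤ J s (d + 1) M * (E.image (DD (d + 1))).card := by
    apply card_le_mul_card_image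
    intro u _
    refine le_trans (card_le_card ?_) (nv_le s (d + 1) M u)
    intro z hz
    rw [mem_filter, hE, mem_filter] at hz
    rw [mem_filter]
    refine ⟨hz.1.1, fun j => ?_⟩
    rw [← hz.2]
    rfl
  refine h1.trans (Nat.mul_le_mul_left _ ?_)
  apply card_le_card_of_injOn (fun u (j : Fin d) => u j.castSucc)
  · intro u hu
    rw [mem_coe, mem_image] at hu
    obtain ⟨z, hz, rfl⟩ := hu
    rw [hE, mem_filter] at hz
    exact DD_mem s d M z hz.1
  · intro u hu u' hu' huu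
    rw [mem_coe, mem_image] at hu hu'
    obtain ⟨z, hz, rfl⟩ := hu
    obtain ⟨z', hz', rfl⟩ := hu'
    rw [hE, mem_filter] at hz hz'
    have r1 := rel hF hv hz.1 hz.2
    have r2 := rel hF hv hz'.1 hz'.2
    rw [Fin.sum_univ_castSucc] at r1 r2
    have h3 : ∀ j : Fin d, DD (d + 1) z j.castSucc = DD (d + 1) z' j.castSucc := fun j => congrFun huu j
    simp only [h3] at r1
    have h4 : F.coeff (((Fin.last d : Fin (d + 1)) : ℕ) + 1) ≠ 0 := by
      rw [Fin.val_last, ← hF]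
      have : F ≠ 0 := by
        intro h
        rw [h, natDegree_zero] at hF
        omega
      exact leadingCoeff_ne_zero.2 this
    have h5 : (DD (d + 1) z (Fin.last d) : ℝ) = DD (d + 1) z' (Fin.last d) := by
      apply mul_left_cancel₀ h4
      linarith
    have h6 : DD (d + 1) z (Fin.last d) = DD (d + 1) z' (Fin.last d) := by exact_mod_cast h5
    funext j
    refine Fin.lastCases h6 (fun i => h3 i) j

theorem card_box_le {s d M : ℕ} (hs : 1 ≤ s) (hM : 1 ≤ M) :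
    ((Box s d M).card : ℝ) ≤ (3 * (s : ℝ)) ^ d * (M : ℝ) ^ ((d : ℝ) * (d + 1) / 2) := by
  have hsr : (1 : ℝ) ≤ s := by exact_mod_cast hs
  have hMr : (1 : ℝ) ≤ M := by exact_mod_cast hM
  have hM0 : (0 : ℝ) < M := by linarith
  unfold Box
  rw [Fintype.card_piFinset]
  push_cast
  have h1 : ∀ j : Fin d, (((Icc (-((s * M ^ ((j : ℕ) + 1) : ℕ) : ℤ)) ((s * M ^ ((j : ℕ) + 1) : ℕ) : ℤ)).card : ℕ) : ℝ) ≤
      3 * s * (M : ℝ) ^ ((j : ℕ) + 1) := by
    intro j
    rw [Pool.Agent.Y93.VK.card_box]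
    push_cast
    have : (1 : ℝ) ≤ s * (M : ℝ) ^ ((j : ℕ) + 1) := one_le_mul_of_one_le_of_one_le hsr (one_le_pow₀ hMr)
    linarith
  have h2 : ∏ j : Fin d, 3 * s * (M : ℝ) ^ ((j : ℕ) + 1) = (3 * (s : ℝ)) ^ d * (M : ℝ) ^ ((d : ℝ) * (d + 1) / 2) := by
    rw [← Finset.prod_range (fun j => 3 * s * (M : ℝ) ^ (j + 1)), prod_mul_distrib, prod_const, card_range]
    congr 1
    clear h1
    induction d with
    | zero => simp
    | succ d ih =>
      rw [prod_range_succ, ih, ← Real.rpow_natCast (M : ℝ) (d + 1), ← Real.rpow_add hM0]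
      congr 1
      push_cast
      ring
  rw [← h2]
  refine prod_le_prod (fun _ _ => Nat.cast_nonneg _) (fun j _ => ?_)
  exact_mod_cast h1 j

/-- the energy of the values of a polynomial of degree `k` -/
theorem energy_bound {k m M : ℕ} (hk : 2 ≤ k) (hM : 1 ≤ M) {v : ℕ → ℤ} (h : PolyValued k M v) :
    (energy (k ^ 2 + k * m) M v : ℝ) ≤ (3 * ((k ^ 2 + k * m : ℕ) : ℝ)) ^ k *
      Real.exp (104 * (((k : ℝ) + m + 2) ^ 3 * Real.log ((k : ℝ) + m + 2))) *
      (M : ℝ) ^ (2 * ((k : ℝ) ^ 2 + k * m) - k + k * (k + 1) / 2 * (1 - 1 / (k : ℝ)) ^ m : ℝ) := by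
  obtain ⟨d, rfl⟩ : ∃ d, k = d + 1 := ⟨k - 1, by omega⟩
  obtain ⟨s, hs⟩ : ∃ s, s = (d + 1) ^ 2 + (d + 1) * m := ⟨_, rfl⟩
  have hs1 : 1 ≤ s := by
    rw [hs]
    have : 1 ≤ (d + 1) ^ 2 := Nat.one_le_pow _ _ (by omega)
    omega
  have hsr : (1 : ℝ) ≤ s := by exact_mod_cast hs1
  have hM0 : (0 : ℝ) < M := by exact_mod_cast hM
  have h1 := energy_card_le s d M h
  have h2 := card_box_le (d := d) hs1 hM
  have h3 := vm (m := m) hk hM
  rw [← hs] at h3 ⊢
  have h4 : (energy s M v : ℝ) ≤ (J s (d + 1) M : ℝ) * (Box s d M).card := by exact_mod_cast h1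
  refine h4.trans ((mul_le_mul h3 h2 (Nat.cast_nonneg _) (by positivity)).trans ?_)
  have h5 : (3 * (s : ℝ)) ^ d ≤ (3 * (s : ℝ)) ^ (d + 1) := pow_le_pow_right₀ (by linarith) (by omega)
  have h6 : ∀ a b c e : ℝ, a * b * (c * e) = c * a * (b * e) := fun a b c e => by ring
  rw [h6, ← Real.rpow_add hM0]
  refine mul_le_mul (mul_le_mul_of_nonneg_right h5 (Real.exp_nonneg _)) (le_of_eq ?_) (by positivity) (by positivity)
  congr 1
  push_cast
  ring

end Pool.Agent.V5helper54.GD
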