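import Pool.Agent.V5helper54.GD.En
import Pool.Agent.V5helper23.KP.Pow

set_option autoImplicit false

/-!
# The values of a polynomial of growing degree have few large Fourier coefficients
-/

namespace Pool.Agent.V5helper54.GD

open Finset Polynomial
open Pool.Agent.H373R2.T7 (energy)
open Pool.Agent.H807R2.Dav (ee)

theorem params (θ : ℝ) (h0 : 0 < θ) (h1 : θ ≤ 1) : ∃ c C : ℝ, 0 < c ∧ c ≤ θ / 16 ∧ 1 ≤ C ∧ ∀ k : ℕ, 2 ≤ k →
    ∃ m : ℕ, (k : ℝ) * (k + 1) / 2 * (1 - 1 / (k : ℝ)) ^ m ≤ θ / 16 * k ∧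
      c * (3 * ((k : ℝ) ^ 2 + k * m)) ≤ θ / 16 * k * (k * Real.log k) ∧
      14 + 4 * ((k : ℝ) ^ 2 + k * m) + 3 * ((k : ℝ) ^ 2 + k * m) * k +
        104 * (((k : ℝ) + m + 2) ^ 3 * Real.log ((k : ℝ) + m + 2)) ≤ C * ((k : ℝ) ^ 3 * Real.log k ^ 4) := by
  obtain ⟨a, ha⟩ : ∃ a, a = Real.log (16 / θ) := ⟨_, rfl⟩
  have hea : Real.exp (-a) = θ / 16 := by
    rw [ha, Real.exp_neg, Real.exp_log (by positivity), inv_div]
  have ha0 : 0 ≤ a := by
    rw [ha]
    apply Real.log_nonneg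
    rw [le_div_iff₀ h0]
    linarith
  obtain ⟨C3, hC3⟩ : ∃ C3, C3 = 2 * a + 4 := ⟨_, rfl⟩
  obtain ⟨C4, hC4⟩ : ∃ C4, C4 = 2 * a + 6 := ⟨_, rfl⟩
  have hC30 : 0 < C3 := by linarith
  have hC40 : 0 < C4 := by linarith
  have hC34 : 4 ≤ C3 := by linarith
  refine ⟨θ / (48 * C3), 14 + 20 * C3 + 104 * (C4 ^ 3 * (2 * C4 + 2)), by positivity, ?_, ?_, fun k hk => ?_⟩
  · rw [div_le_div_iff₀ (by positivity) (by norm_num)]
    nlinarith
  · have : 0 ≤ C4 ^ 3 * (2 * C4 + 2) := by positivity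
    linarith
  have hkr : (2 : ℝ) ≤ k := by exact_mod_cast hk
  have hk0 : (0 : ℝ) < k := by linarith
  obtain ⟨l, hl⟩ : ∃ l, l = Real.log (k : ℝ) := ⟨_, rfl⟩
  have hel : Real.exp l = k := by rw [hl, Real.exp_log hk0]
  have hl69 : (69 / 100 : ℝ) ≤ l := by
    have e1 : Real.log 2 ≤ l := by rw [hl]; exact Real.log_le_log (by norm_num) hkr
    have := Real.log_two_gt_d9
    linarith
  have hl0 : 0 < l := by linarith
  have hlk : l ≤ k := by
    rw [hl]
    have := Real.log_le_sub_one_of_pos hk0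
    linarith
  rw [← hl]
  obtain ⟨m, hm⟩ : ∃ m : ℕ, m = ⌈(k : ℝ) * (a + l)⌉₊ := ⟨_, rfl⟩
  have hm1 : (k : ℝ) * (a + l) ≤ m := by rw [hm]; exact Nat.le_ceil _
  have hm2 : (m : ℝ) ≤ k * (a + l) + 1 := by rw [hm]; exact (Nat.ceil_lt_add_one (by positivity)).le
  have hkl : 1 ≤ k * l := by nlinarith
  have hl2 : 1 ≤ 2 * l := by linarith
  have hm0 : (0 : ℝ) ≤ m := Nat.cast_nonneg m
  -- the number of the variables
  have hs : (k : ℝ) ^ 2 + k * m ≤ C3 * (k ^ 2 * l) := by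
    have e1 : (k : ℝ) * m ≤ k * (k * (a + l) + 1) := mul_le_mul_of_nonneg_left hm2 hk0.le
    have e2 : (k : ℝ) ^ 2 * 1 ≤ k ^ 2 * (2 * l) := mul_le_mul_of_nonneg_left hl2 (by positivity)
    have e3 : (k : ℝ) ^ 2 * a * 1 ≤ k ^ 2 * a * (2 * l) := mul_le_mul_of_nonneg_left hl2 (by positivity)
    have e4 : (k : ℝ) * 1 ≤ k * (k * l) := mul_le_mul_of_nonneg_left hkl hk0.le
    rw [hC3]
    nlinarith
  have hA : (k : ℝ) + m + 2 ≤ C4 * (k * l) := by
    have e2 : (k : ℝ) * 1 ≤ k * (2 * l) := mul_le_mul_of_nonneg_left hl2 (by positivity)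
    have e3 : (k : ℝ) * a * 1 ≤ k * a * (2 * l) := mul_le_mul_of_nonneg_left hl2 (by positivity)
    rw [hC4]
    nlinarith
  have hA0 : 0 < (k : ℝ) + m + 2 := by linarith
  refine ⟨m, ?_, ?_, ?_⟩
  · have e1 : (0 : ℝ) ≤ 1 - 1 / (k : ℝ) := by
      rw [sub_nonneg, div_le_one hk0]
      linarith
    have e2 : (1 - 1 / (k : ℝ)) ^ m ≤ θ / 16 * (1 / k) := by
      calc (1 - 1 / (k : ℝ)) ^ m ≤ Real.exp (-(1 / (k : ℝ))) ^ m :=
            pow_le_pow_left₀ e1 (Real.one_sub_le_exp_neg _) m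
        _ = Real.exp (-(m / k)) := by
            rw [← Real.exp_nat_mul]
            congr 1
            ring
        _ ≤ Real.exp (-a + -l) := by
            apply Real.exp_le_exp.2
            have : a + l ≤ m / k := by
              rw [le_div_iff₀ hk0]
              linarith
            linarith
        _ = θ / 16 * (1 / k) := by
            rw [Real.exp_add, hea, Real.exp_neg, hel, one_div]
    have e3 : (0 : ℝ) ≤ (1 - 1 / (k : ℝ)) ^ m := pow_nonneg e1 m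
    have e4 : (k : ℝ) * (k + 1) / 2 ≤ k ^ 2 := by nlinarith
    calc (k : ℝ) * (k + 1) / 2 * (1 - 1 / (k : ℝ)) ^ m ≤ k ^ 2 * (θ / 16 * (1 / k)) :=
          mul_le_mul e4 e2 e3 (by positivity)
      _ = θ / 16 * k := by
          field_simp
  · calc θ / (48 * C3) * (3 * ((k : ℝ) ^ 2 + k * m)) ≤ θ / (48 * C3) * (3 * (C3 * (k ^ 2 * l))) := by
          apply mul_le_mul_of_nonneg_left _ (by positivity)
          linarith
      _ = θ / 16 * k * (k * l) := by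
          field_simp
          ring
  · obtain ⟨D, hD⟩ : ∃ D, D = (k : ℝ) ^ 3 * l ^ 4 := ⟨_, rfl⟩
    have hl3 : (1 / 4 : ℝ) ≤ l ^ 3 := by
      calc (1 / 4 : ℝ) ≤ (69 / 100) ^ 3 := by norm_num
        _ ≤ l ^ 3 := pow_le_pow_left₀ (by norm_num) hl69 3
    have hl4 : (1 / 8 : ℝ) ≤ l ^ 4 := by
      calc (1 / 8 : ℝ) ≤ (69 / 100) ^ 4 := by norm_num
        _ ≤ l ^ 4 := pow_le_pow_left₀ (by norm_num) hl69 4
    have hk3 : (8 : ℝ) ≤ (k : ℝ) ^ 3 := by
      calc (8 : ℝ) = 2 ^ 3 := by norm_num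
        _ ≤ (k : ℝ) ^ 3 := pow_le_pow_left₀ (by norm_num) hkr 3
    have hD1 : 1 ≤ D := by
      rw [hD]
      nlinarith
    have hk3l : (k : ℝ) ^ 3 * l ≤ 4 * D := by
      have e1 : (k : ℝ) ^ 3 * l * (1 / 4) ≤ k ^ 3 * l * l ^ 3 := mul_le_mul_of_nonneg_left hl3 (by positivity)
      rw [hD]
      nlinarith
    have hk2l : (k : ℝ) ^ 2 * l ≤ 2 * D := by
      have e1 : (k : ℝ) ^ 2 * l * 2 ≤ k ^ 2 * l * k := mul_le_mul_of_nonneg_left hkr (by positivity)
      nlinarith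
    have e1 : ((k : ℝ) ^ 2 + k * m) * k ≤ C3 * (4 * D) := by
      calc ((k : ℝ) ^ 2 + k * m) * k ≤ C3 * (k ^ 2 * l) * k := mul_le_mul_of_nonneg_right hs hk0.le
        _ = C3 * (k ^ 3 * l) := by ring
        _ ≤ _ := mul_le_mul_of_nonneg_left hk3l hC30.le
    have e2 : (k : ℝ) ^ 2 + k * m ≤ C3 * (2 * D) := hs.trans (mul_le_mul_of_nonneg_left hk2l hC30.le)
    have e3 : Real.log ((k : ℝ) + m + 2) ≤ (2 * C4 + 2) * l := by
      calc Real.log ((k : ℝ) + m + 2) ≤ Real.log (C4 * (k * l)) := Real.log_le_log hA0 hA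
        _ = Real.log C4 + (Real.log k + Real.log l) := by
            rw [Real.log_mul hC40.ne' (by positivity), Real.log_mul hk0.ne' hl0.ne']
        _ ≤ C4 + (l + l) := by
            have g1 := Real.log_le_sub_one_of_pos hC40
            have g2 := Real.log_le_sub_one_of_pos hl0
            rw [← hl]
            linarith
        _ ≤ _ := by nlinarith
    have e4 : ((k : ℝ) + m + 2) ^ 3 * Real.log ((k : ℝ) + m + 2) ≤ C4 ^ 3 * (2 * C4 + 2) * D := by
      calc ((k : ℝ) + m + 2) ^ 3 * Real.log ((k : ℝ) + m + 2) ≤ (C4 * (k * l)) ^ 3 * ((2 * C4 + 2) * l) := by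
            refine mul_le_mul (pow_le_pow_left₀ hA0.le hA 3) e3 (Real.log_nonneg (by linarith)) (by positivity)
        _ = _ := by rw [hD]; ring
    rw [← hD]
    linarith [e1, e2, e4, hD1]

/-- few large Fourier coefficients -/
theorem few (θ : ℝ) (h0 : 0 < θ) (h1 : θ ≤ 1) : ∃ c K : ℝ, 0 < c ∧ c ≤ θ / 16 ∧ 0 < K ∧ ∀ (B k M N : ℕ) (v : ℕ → ℤ),
    2 ≤ k → 2 ≤ M → K * (1 + Real.log (B + 1)) * ((k : ℝ) ^ 2 * Real.log k ^ 4) ≤ Real.log M → PolyValued k M v →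
    (∀ n ∈ Icc 1 M, |v n| ≤ B * N) → (M : ℝ) ^ ((k : ℝ) / 2) ≤ N → (N : ℝ) ≤ (M : ℝ) ^ ((1 + c) * k) →
    1 ≤ c * Real.log M / (k * Real.log k) ∧
    ∀ F : Finset ℝ, (∀ α ∈ F, 0 ≤ α ∧ α < 1 ∧
      M * (M : ℝ) ^ (-(c / (k * Real.log k))) < ‖∑ n ∈ Icc 1 M, ee ((v n : ℝ) * α)‖) →
      (∀ a ∈ F, ∀ b ∈ F, a ≠ b → 1 / (N : ℝ) ≤ |a - b|) → (F.card : ℝ) ≤ (N : ℝ) ^ θ := by
  obtain ⟨c, C, hc0, hcθ, hC1, hpar⟩ := params θ h0 h1
  refine ⟨c, 16 * C / θ + 4 / c, hc0, hcθ, by positivity, fun B k M N v hk hM2 hK hv hB hN1 hN2 => ?_⟩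
  obtain ⟨m, p1, p2, p3⟩ := hpar k hk
  have hkr : (2 : ℝ) ≤ k := by exact_mod_cast hk
  have hk0 : (0 : ℝ) < k := by linarith
  have hMr : (2 : ℝ) ≤ M := by exact_mod_cast hM2
  have hM0 : (0 : ℝ) < M := by linarith
  obtain ⟨l, hl⟩ : ∃ l, l = Real.log (k : ℝ) := ⟨_, rfl⟩
  have hl69 : (69 / 100 : ℝ) ≤ l := by
    have e1 : Real.log 2 ≤ l := by rw [hl]; exact Real.log_le_log (by norm_num) hkr
    have := Real.log_two_gt_d9
    linarith
  have hl0 : 0 < l := by linarith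
  rw [← hl] at hK p2 p3 ⊢
  obtain ⟨L, hL⟩ : ∃ L, L = Real.log (M : ℝ) := ⟨_, rfl⟩
  rw [← hL] at hK ⊢
  have heL : Real.exp L = M := by rw [hL, Real.exp_log hM0]
  have hL0 : 0 < L := by rw [hL]; exact Real.log_pos (by linarith)
  obtain ⟨b, hb⟩ : ∃ b, b = Real.log ((B : ℝ) + 1) := ⟨_, rfl⟩
  rw [← hb] at hK
  have hb0 : 0 ≤ b := by
    rw [hb]
    apply Real.log_nonneg
    have : (0 : ℝ) ≤ B := Nat.cast_nonneg B
    linarith
  have heb : Real.exp b = (B : ℝ) + 1 := by rw [hb, Real.exp_log (by positivity)]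
  have hl3 : (1 / 4 : ℝ) ≤ l ^ 3 := by
    calc (1 / 4 : ℝ) ≤ (69 / 100) ^ 3 := by norm_num
      _ ≤ l ^ 3 := pow_le_pow_left₀ (by norm_num) hl69 3
  have hD0 : 0 < (k : ℝ) ^ 2 * l ^ 4 := by positivity
  have hkl0 : 0 < k * l := by positivity
  have hu1 : 1 ≤ c * L / (k * l) := by
    rw [le_div_iff₀ hkl0, one_mul]
    have e1 : 4 / c * ((k : ℝ) ^ 2 * l ^ 4) ≤ L := by
      refine le_trans ?_ hK
      apply mul_le_mul_of_nonneg_right _ hD0.le
      have e2 : 4 / c ≤ 16 * C / θ + 4 / c := by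
        have : 0 < 16 * C / θ := by positivity
        linarith
      nlinarith [show 0 < 16 * C / θ + 4 / c by positivity]
    rw [div_mul_eq_mul_div, div_le_iff₀ hc0] at e1
    have e3 : (k : ℝ) * l * (1 / 4) ≤ k * l * l ^ 3 := mul_le_mul_of_nonneg_left hl3 hkl0.le
    have e4 : (k : ℝ) * l * l ^ 3 * 1 ≤ k * l * l ^ 3 * k := mul_le_mul_of_nonneg_left (by linarith) (by positivity)
    nlinarith
  refine ⟨hu1, fun F hF hsep => ?_⟩
  obtain ⟨u, hu⟩ : ∃ u, u = c * L / (k * l) := ⟨_, rfl⟩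
  rw [← hu] at hu1
  have hρ : (M : ℝ) ^ (-(c / (k * l))) = Real.exp (-u) := by
    rw [Real.rpow_def_of_pos hM0, ← hL, hu]
    congr 1
    ring
  obtain ⟨s, hs⟩ : ∃ s : ℕ, s = k ^ 2 + k * m := ⟨_, rfl⟩
  have hsr : (s : ℝ) = (k : ℝ) ^ 2 + k * m := by rw [hs]; push_cast; ring
  have hs4 : (4 : ℝ) ≤ s := by
    rw [hsr]
    have : (0 : ℝ) ≤ k * m := by positivity
    nlinarith
  obtain ⟨R, hR⟩ : ∃ R, R = Real.exp u / 2 := ⟨_, rfl⟩
  have heu : 2 ≤ Real.exp u := by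
    have := Real.add_one_le_exp u
    linarith
  have hR1 : 1 ≤ R := by rw [hR]; linarith
  obtain ⟨J, hJ⟩ : ∃ J : ℕ, J = ⌊28 * R + 2 * s⌋₊ + 1 := ⟨_, rfl⟩
  have hJ1 : 28 * R + 2 * s < J := by
    rw [hJ]
    push_cast
    exact Nat.lt_floor_add_one _
  have hJ2 : (J : ℝ) ≤ 28 * R + 2 * s + 1 := by
    rw [hJ]
    push_cast
    have := Nat.floor_le (show 0 ≤ 28 * R + 2 * s by positivity)
    linarith
  have hN0 : (0 : ℝ) < N := lt_of_lt_of_le (by positivity) hN1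
  have hNn : 1 ≤ N := by
    have : 0 < N := by exact_mod_cast hN0
    omega
  have hBN : 1 ≤ (B + 1) * N := Nat.mul_pos (by omega) hNn
  have key := Pool.Agent.V5helper23.KP.few_freq s M ((B + 1) * N) J 1 v 1 R hR1 (by omega) hBN one_ne_zero (by simp) (by
      intro n hn
      refine (hB n hn).trans ?_
      push_cast
      have : (0 : ℤ) ≤ N := Int.natCast_nonneg N
      nlinarith) (by
      push_cast
      linarith) F (by
      intro α hα
      obtain ⟨q1, q2, q3⟩ := hF α hα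
      refine ⟨q1, q2, ?_⟩
      rw [hρ] at q3
      have e1 : (M : ℝ) / (2 * R) = M * Real.exp (-u) := by
        rw [hR, Real.exp_neg]
        field_simp
      rw [e1]
      refine lt_of_lt_of_eq q3 ?_
      congr 1
      apply sum_congr rfl
      intro n _
      push_cast
      rw [one_mul]) (by
      intro x hx y hy hxy
      refine le_trans ?_ (hsep x hx y hy hxy)
      apply one_div_le_one_div_of_le hN0
      push_cast
      have : (0 : ℝ) ≤ B := Nat.cast_nonneg B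
      nlinarith)
  have hen := energy_bound (m := m) hk (by omega : 1 ≤ M) hv
  rw [← hs] at hen
  -- everything as an exponential
  have hNe : (N : ℝ) = Real.exp (Real.log N) := (Real.exp_log hN0).symm
  have hlogN1 : k / 2 * L ≤ Real.log N := by
    have e1 := Real.log_le_log (by positivity) hN1
    rw [Real.log_rpow hM0, ← hL] at e1
    exact e1
  have hlogN2 : Real.log N ≤ (1 + c) * k * L := by
    have e1 := Real.log_le_log hN0 hN2
    rw [Real.log_rpow hM0, ← hL] at e1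
    exact e1
  have hJe : (J : ℝ) ≤ Real.exp (14 + 2 * s + u) := by
    rw [hR] at hJ2
    have e1 := Real.add_one_le_exp (14 + 2 * (s : ℝ))
    have e2 : (14 + 2 * (s : ℝ) + 1) * Real.exp u ≤ Real.exp (14 + 2 * s) * Real.exp u :=
      mul_le_mul_of_nonneg_right e1 (Real.exp_nonneg _)
    rw [← Real.exp_add] at e2
    refine le_trans ?_ e2
    nlinarith
  have h3s : (3 * (s : ℝ)) ^ k ≤ Real.exp (3 * s * k) := by
    have e1 := Real.add_one_le_exp (3 * (s : ℝ))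
    calc (3 * (s : ℝ)) ^ k ≤ Real.exp (3 * s) ^ k := pow_le_pow_left₀ (by positivity) (by linarith) k
      _ = _ := by
        rw [← Real.exp_nat_mul]
        congr 1
        ring
  obtain ⟨W, hW⟩ : ∃ W, W = 104 * (((k : ℝ) + m + 2) ^ 3 * Real.log ((k : ℝ) + m + 2)) := ⟨_, rfl⟩
  rw [← hW] at hen p3
  obtain ⟨η, hη⟩ : ∃ η, η = (k : ℝ) * (k + 1) / 2 * (1 - 1 / (k : ℝ)) ^ m := ⟨_, rfl⟩
  rw [← hη] at hen p1
  rw [← hsr] at hen p2 p3
  have hen2 : (energy s M v : ℝ) ≤ Real.exp (3 * s * k + W + (2 * s - k + η) * L) := by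
    refine hen.trans ?_
    rw [Real.rpow_def_of_pos hM0, ← hL, Real.exp_add, Real.exp_add, mul_comm L]
    apply mul_le_mul_of_nonneg_right _ (Real.exp_nonneg _)
    exact mul_le_mul_of_nonneg_right h3s (Real.exp_nonneg _)
  have hleft : Real.exp ((L - 1 - u) * (2 * s)) ≤ ((M : ℝ) / (4 * R)) ^ (2 * s) := by
    have e1 : (M : ℝ) / (4 * R) = Real.exp (L - u) / 2 := by
      rw [hR, Real.exp_sub, heL]
      field_simp
      norm_num
    have e2 : Real.exp (L - 1 - u) ≤ (M : ℝ) / (4 * R) := by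
      rw [e1, show L - 1 - u = (L - u) - 1 by ring, Real.exp_sub]
      apply div_le_div_of_nonneg_left (Real.exp_nonneg _) (by norm_num)
      have := Real.add_one_le_exp (1 : ℝ)
      linarith
    calc Real.exp ((L - 1 - u) * (2 * s)) = Real.exp (L - 1 - u) ^ (2 * s) := by
          rw [← Real.exp_nat_mul]
          congr 1
          push_cast
          ring
      _ ≤ _ := pow_le_pow_left₀ (Real.exp_nonneg _) e2 _
  have hfin : (F.card : ℝ) * Real.exp ((L - 1 - u) * (2 * s)) ≤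
      Real.exp (b + Real.log N + (14 + 2 * s + u) + (3 * s * k + W + (2 * s - k + η) * L)) := by
    refine (mul_le_mul_of_nonneg_left hleft (Nat.cast_nonneg _)).trans (key.trans ?_)
    rw [Real.exp_add, Real.exp_add, Real.exp_add, heb, ← hNe]
    push_cast
    apply mul_le_mul _ hen2 (Nat.cast_nonneg _) (by positivity)
    exact mul_le_mul_of_nonneg_left hJe (by positivity)
  have hfin2 : (F.card : ℝ) ≤
      Real.exp (b + Real.log N + (14 + 2 * s + u) + (3 * s * k + W + (2 * s - k + η) * L) - (L - 1 - u) * (2 * s)) := by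
    rw [Real.exp_sub, le_div_iff₀ (Real.exp_pos _)]
    exact hfin
  refine hfin2.trans ?_
  rw [Real.rpow_def_of_pos hN0]
  apply Real.exp_le_exp.2
  -- the inequality between the exponents
  have g1 : b + (14 + 4 * s + 3 * s * k + W) ≤ θ / 16 * (k * L) := by
    have e1 : b + (14 + 4 * s + 3 * s * k + W) ≤ (1 + b) * (C * ((k : ℝ) ^ 3 * l ^ 4)) := by
      have e2 : (1 : ℝ) ≤ (k : ℝ) ^ 3 * l ^ 4 := by
        have f1 : (8 : ℝ) ≤ (k : ℝ) ^ 3 := by
          calc (8 : ℝ) = 2 ^ 3 := by norm_num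
            _ ≤ (k : ℝ) ^ 3 := pow_le_pow_left₀ (by norm_num) hkr 3
        have f2 : (1 / 8 : ℝ) ≤ l ^ 4 := by
          calc (1 / 8 : ℝ) ≤ (69 / 100) ^ 4 := by norm_num
            _ ≤ l ^ 4 := pow_le_pow_left₀ (by norm_num) hl69 4
        nlinarith
      have e3 : 1 ≤ C * ((k : ℝ) ^ 3 * l ^ 4) := one_le_mul_of_one_le_of_one_le hC1 e2
      nlinarith
    have e4 : 16 * C / θ * ((1 + b) * ((k : ℝ) ^ 2 * l ^ 4)) ≤ L := by
      refine le_trans ?_ hK
      have : 0 ≤ 4 / c * ((1 + b) * ((k : ℝ) ^ 2 * l ^ 4)) := by positivity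
      nlinarith
    rw [div_mul_eq_mul_div, div_le_iff₀ h0] at e4
    have e5 : 16 * C * ((1 + b) * ((k : ℝ) ^ 2 * l ^ 4)) * k ≤ L * θ * k := mul_le_mul_of_nonneg_right e4 hk0.le
    nlinarith
  have g2 : u * (1 + 2 * s) ≤ θ / 16 * (k * L) := by
    have e1 : u * (1 + 2 * s) ≤ u * (3 * s) := mul_le_mul_of_nonneg_left (by linarith) (by linarith)
    refine e1.trans ?_
    rw [hu, div_mul_eq_mul_div, div_le_iff₀ hkl0]
    have e2 : c * (3 * s) * L ≤ θ / 16 * k * (k * l) * L := mul_le_mul_of_nonneg_right p2 hL0.le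
    nlinarith
  have g3 : η * L ≤ θ / 16 * k * L := mul_le_mul_of_nonneg_right p1 hL0.le
  have g4 : c * (k * L) ≤ θ / 16 * (k * L) := mul_le_mul_of_nonneg_right hcθ (by positivity)
  have g5 : θ / 2 * (k * L) ≤ θ * Real.log N := by nlinarith
  have g6 : 0 < θ * (k * L) := by positivity
  nlinarith

end Pool.Agent.V5helper54.GD
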